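import Pool.Agent.Q237.LR.Stm
import Pool.Agent.H999R5.Inj.T_QT

/-!
# Project LR, job SGN: from Gaussian variables to random signs
-/

set_option autoImplicit false

namespace Pool.Agent.Q121.LR

open MeasureTheory ProbabilityTheory H10PL
open Pool.Agent.H999R5.Inj (GX gm qf)
open Pool.Agent.Q237.LR
open scoped Matrix

/-- weighted AM-GM -/
theorem amgm (a c t : ℝ) (ha0 : 0 < a) (ha1 : a ≤ 1) (hc : 0 < c) (ht : 0 ≤ t) :
    t ^ a ≤ a * (t * c ^ (a - 1)) + (1 - a) * c ^ a := by
  have h := Real.geom_mean_le_arith_mean2_weighted (w₁ := a) (w₂ := 1 - a) (p₁ := t / c)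
    (p₂ := 1) ha0.le (by linarith) (by positivity) zero_le_one (by ring)
  rw [Real.one_rpow, mul_one, mul_one] at h
  have h1 : t ^ a = (t / c) ^ a * c ^ a := by
    rw [← Real.mul_rpow (by positivity) hc.le, div_mul_cancel₀ _ hc.ne']
  have h2 : c ^ (a - 1) = c ^ a / c := Real.rpow_sub_one hc.ne' a
  have hca : 0 < c ^ a := Real.rpow_pos_of_pos hc a
  rw [h1, h2]
  calc (t / c) ^ a * c ^ a ≤ (a * (t / c) + (1 - a)) * c ^ a :=
        mul_le_mul_of_nonneg_right h hca.le
    _ = a * (t * (c ^ a / c)) + (1 - a) * c ^ a := by ring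

theorem sg_sq (b : Bool) : sg b ^ 2 = 1 := by cases b <;> simp [sg]

/-- the first absolute moment of the standard Gaussian law -/
noncomputable def k1 : ℝ := ∫ t, |t| ∂(gaussianReal 0 1)

theorem int_abs : Integrable (fun t : ℝ => |t|) (gaussianReal 0 1) := by
  have h : MemLp (id : ℝ → ℝ) 1 (gaussianReal 0 1) := by
    have := memLp_id_gaussianReal (μ := 0) (v := 1) 1
    simpa using this
  exact (memLp_one_iff_integrable.1 h).abs

theorem k1_pos : 0 < k1 := by
  unfold k1
  rw [integral_pos_iff_support_of_nonneg (fun t => abs_nonneg t) int_abs]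
  have h1 : Function.support (fun t : ℝ => |t|) = {(0 : ℝ)}ᶜ := by
    ext t
    simp
  have : NullSingletonClass (gaussianReal 0 1) := nullSingletonClass_gaussianReal (by norm_num)
  rw [h1, prob_compl_eq_one_sub (measurableSet_singleton 0), measure_singleton]
  simp

theorem mp_fl (n : ℕ) (ε : Fin n → Bool) :
    MeasurePreserving (fun (g : Fin n → ℝ) (i : Fin n) => sg (ε i) * g i) (gm n) (gm n) := by
  unfold gm
  refine measurePreserving_pi _ _ (fun i => ⟨by fun_prop, ?_⟩)
  rw [gaussianReal_map_const_mul]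
  have e2 : (NNReal.mk (sg (ε i) ^ 2) (sq_nonneg _) * 1 : NNReal) = 1 := by
    ext
    simp [sg_sq]
  rw [mul_zero, e2]

theorem qf_sum {n N : ℕ} (A : Fin n → Matrix (Fin N) (Fin N) ℝ) (h : Fin n → ℝ) (x : Fin N → ℝ) :
    qf (∑ i, h i • A i) x = ∑ i, h i * qf (A i) x := by
  unfold qf
  rw [Matrix.sum_mulVec, dotProduct_sum]
  refine Finset.sum_congr rfl (fun i _ => ?_)
  rw [Matrix.smul_mulVec, dotProduct_smul, smul_eq_mul]

/-- flip the signs where `g` is negative -/
noncomputable def flip {n : ℕ} (g : Fin n → ℝ) (ε : Fin n → Bool) : Fin n → Bool :=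
  fun i => if g i < 0 then !(ε i) else ε i

theorem flip_flip {n : ℕ} (g : Fin n → ℝ) : Function.Involutive (flip g) := by
  intro ε
  funext i
  unfold flip
  by_cases h : g i < 0 <;> simp [h]

theorem flip_mul {n : ℕ} (g : Fin n → ℝ) (ε : Fin n → Bool) (i : Fin n) :
    sg (ε i) * |g i| = sg (flip g ε i) * g i := by
  unfold flip
  by_cases h : g i < 0
  · rw [if_pos h, abs_of_neg h]
    cases ε i <;> simp [sg]
  · rw [if_neg h, abs_of_nonneg (not_lt.1 h)]

theorem sum_flip {n : ℕ} (F : (Fin n → ℝ) → ℝ) (g : Fin n → ℝ) :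
    ∑ ε : Fin n → Bool, F (fun i => sg (ε i) * |g i|) =
      ∑ ε : Fin n → Bool, F (fun i => sg (ε i) * g i) := by
  have h1 : ∀ ε : Fin n → Bool, F (fun i => sg (ε i) * |g i|) =
      (fun ε : Fin n → Bool => F (fun i => sg (ε i) * g i)) ((flip_flip g).toPerm (flip g) ε) := by
    intro ε
    show F (fun i => sg (ε i) * |g i|) = F (fun i => sg (flip g ε i) * g i)
    congr 1
    funext i
    exact flip_mul g ε i
  rw [Finset.sum_congr rfl (fun ε _ => h1 ε)]
  exact Equiv.sum_comp ((flip_flip g).toPerm (flip g))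
    (fun ε : Fin n → Bool => F (fun i => sg (ε i) * g i))

theorem sgn : S_NCK → S_SGN := by
  intro hN m hm1'
  have hk := k1_pos
  have hm1 : (1 : ℝ) ≤ m := by exact_mod_cast hm1'
  refine ⟨k1⁻¹ * Real.sqrt (2 * m), by positivity, ?_⟩
  intro n N A c T hA hc hT hS htrA
  have hsym : ∀ g, (GX A g).IsSymm := by
    intro g
    unfold GX Matrix.IsSymm
    rw [Matrix.transpose_sum]
    exact Finset.sum_congr rfl (fun i _ => by rw [Matrix.transpose_smul, (hA i).eq])
  have hQ := Pool.Agent.H999R5.Inj.t_QT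
  obtain ⟨hint, hE⟩ := hN m n N A c T hm1' hA hc hS htrA
  have htr : ∀ g, 0 ≤ (GX A g ^ (2 * m)).trace := fun g => (hQ N (GX A g) (hsym g) m hm1').1
  obtain ⟨a, ha⟩ : ∃ a : ℝ, a = 1 / (2 * m : ℝ) := ⟨_, rfl⟩
  have ha0 : 0 < a := by rw [ha]; positivity
  have ha1 : a ≤ 1 := by
    rw [ha, div_le_one (by positivity)]
    linarith
  have hcT : 0 < c ^ (m - 1) * T := by positivity
  obtain ⟨b, hb⟩ : ∃ b : ℝ, b = (2 * m : ℝ) ^ m * (c ^ (m - 1) * T) := ⟨_, rfl⟩
  have hb0 : 0 < b := by rw [hb]; positivity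
  rw [← hb] at hE
  have hprob : IsProbabilityMeasure (gm n) := by
    unfold gm
    infer_instance
  obtain ⟨F, hF⟩ : ∃ F : (Fin n → ℝ) → ℝ, F = fun g => (GX A g ^ (2 * m)).trace ^ a := ⟨_, rfl⟩
  have hmaj : ∀ g, F g ≤
      a * ((GX A g ^ (2 * m)).trace * b ^ (a - 1)) + (1 - a) * b ^ a := by
    intro g
    rw [hF]
    exact amgm a b _ ha0 ha1 hb0 (htr g)
  have hi1 : Integrable (fun g => a * ((GX A g ^ (2 * m)).trace * b ^ (a - 1))) (gm n) :=
    (hint.mul_const _).const_mul _
  have hmajint : Integrable (fun g => a * ((GX A g ^ (2 * m)).trace * b ^ (a - 1)) +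
      (1 - a) * b ^ a) (gm n) := hi1.add (integrable_const _)
  have hF0 : ∀ g, 0 ≤ F g := by
    intro g
    rw [hF]
    exact Real.rpow_nonneg (htr g) a
  have hGc : Continuous (fun g : Fin n → ℝ => GX A g) := by
    unfold GX
    fun_prop
  have hFc : Continuous F := by
    rw [hF]
    exact ((hGc.pow (2 * m)).matrix_trace).rpow_const (fun g => Or.inr ha0.le)
  have hFint : Integrable F (gm n) := by
    refine hmajint.mono' hFc.aestronglyMeasurable (Filter.Eventually.of_forall (fun g => ?_))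
    rw [Real.norm_of_nonneg (hF0 g)]
    exact hmaj g
  have hFx : ∀ g x, |qf (GX A g) x| ≤ F g * (x ⬝ᵥ x) := by
    intro g x
    have := (hQ N (GX A g) (hsym g) m hm1').2 x
    rw [← ha] at this
    rw [hF]
    exact this
  -- the flipped functions
  have hfl : ∀ ε : Fin n → Bool, Integrable (fun g : Fin n → ℝ => F (fun i => sg (ε i) * g i))
      (gm n) := fun ε => (mp_fl n ε).integrable_comp_of_integrable hFint
  have hfl2 : ∀ ε : Fin n → Bool, ∫ g, F (fun i => sg (ε i) * g i) ∂(gm n) = ∫ g, F g ∂(gm n) := by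
    intro ε
    have h := (mp_fl n ε)
    calc ∫ g, F (fun i => sg (ε i) * g i) ∂(gm n)
        = ∫ g, F g ∂((gm n).map (fun (g : Fin n → ℝ) (i : Fin n) => sg (ε i) * g i)) :=
          (integral_map h.measurable.aemeasurable hFc.aestronglyMeasurable).symm
      _ = ∫ g, F g ∂(gm n) := by rw [h.map_eq]
  have habc : ∀ ε : Fin n → Bool, Continuous (fun g : Fin n → ℝ => F (fun i => sg (ε i) * |g i|)) := by
    intro ε
    refine hFc.comp ?_
    fun_prop
  have habi : ∀ ε : Fin n → Bool, Integrable (fun g : Fin n → ℝ => F (fun i => sg (ε i) * |g i|))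
      (gm n) := by
    intro ε
    refine (integrable_finsetSum Finset.univ (fun ε' _ => hfl ε')).mono'
      (habc ε).aestronglyMeasurable (Filter.Eventually.of_forall (fun g => ?_))
    rw [Real.norm_of_nonneg (hF0 _), ← sum_flip F g]
    exact Finset.single_le_sum (f := fun ε' : Fin n → Bool => F (fun i => sg (ε' i) * |g i|))
      (fun ε' _ => hF0 _) (Finset.mem_univ ε)
  refine ⟨fun ε => k1⁻¹ * ∫ g, F (fun i => sg (ε i) * |g i|) ∂(gm n), ?_, ?_, ?_⟩
  · intro ε
    exact mul_nonneg (inv_nonneg.2 hk.le) (integral_nonneg (fun g => hF0 _))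
  · intro ε x
    have e1 : ∀ i : Fin n, Integrable (fun g : Fin n → ℝ => |g i|) (gm n) := by
      intro i
      unfold gm
      exact (measurePreserving_eval (fun _ : Fin n => gaussianReal 0 1) i).integrable_comp_of_integrable
        int_abs
    have e2 : ∀ i : Fin n, ∫ g : Fin n → ℝ, |g i| ∂(gm n) = k1 := by
      intro i
      unfold gm k1
      exact integral_comp_eval (μ := fun _ : Fin n => gaussianReal 0 1) (i := i)
        (f := fun t : ℝ => |t|) int_abs.aestronglyMeasurable
    have e3 : ∀ i : Fin n, Integrable (fun g : Fin n → ℝ => (sg (ε i) * |g i|) * qf (A i) x)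
        (gm n) := fun i => ((e1 i).const_mul _).mul_const _
    have e4 : ∫ g, qf (GX A (fun i => sg (ε i) * |g i|)) x ∂(gm n) =
        k1 * qf (∑ i, sg (ε i) • A i) x := by
      have h1 : ∀ g : Fin n → ℝ, qf (GX A (fun i => sg (ε i) * |g i|)) x =
          ∑ i, (sg (ε i) * |g i|) * qf (A i) x := by
        intro g
        unfold GX
        exact qf_sum A (fun i => sg (ε i) * |g i|) x
      rw [integral_congr_ae (Filter.Eventually.of_forall h1), integral_finsetSum _ (fun i _ => e3 i),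
        qf_sum A (fun i => sg (ε i)) x, Finset.mul_sum]
      refine Finset.sum_congr rfl (fun i _ => ?_)
      rw [integral_mul_const, integral_const_mul, e2 i]
      ring
    have e5 : |∫ g, qf (GX A (fun i => sg (ε i) * |g i|)) x ∂(gm n)| ≤
        (∫ g, F (fun i => sg (ε i) * |g i|) ∂(gm n)) * (x ⬝ᵥ x) := by
      rw [← integral_mul_const]
      have h2 := norm_integral_le_of_norm_le (μ := gm n)
        (f := fun g => qf (GX A (fun i => sg (ε i) * |g i|)) x)
        (g := fun g => F (fun i => sg (ε i) * |g i|) * (x ⬝ᵥ x))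
        ((habi ε).mul_const _) (Filter.Eventually.of_forall (fun g => by
          rw [Real.norm_eq_abs]
          exact hFx _ x))
      rwa [Real.norm_eq_abs] at h2
    rw [e4, abs_mul, abs_of_pos hk] at e5
    have e6 : |qf (∑ i, sg (ε i) • A i) x| = k1⁻¹ * (k1 * |qf (∑ i, sg (ε i) • A i) x|) := by
      field_simp
    rw [e6, mul_assoc]
    exact mul_le_mul_of_nonneg_left e5 (inv_nonneg.2 hk.le)
  · rw [← Finset.mul_sum, ← integral_finsetSum _ (fun ε _ => habi ε)]
    have h1 : ∫ g, ∑ ε : Fin n → Bool, F (fun i => sg (ε i) * |g i|) ∂(gm n) =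
        2 ^ n * ∫ g, F g ∂(gm n) := by
      rw [integral_congr_ae (Filter.Eventually.of_forall (fun g => sum_flip F g)),
        integral_finsetSum _ (fun ε _ => hfl ε), Finset.sum_congr rfl (fun ε _ => hfl2 ε)]
      simp
    rw [h1]
    have e1 : ∫ g, F g ∂(gm n) ≤
        ∫ g, (a * ((GX A g ^ (2 * m)).trace * b ^ (a - 1)) + (1 - a) * b ^ a) ∂(gm n) :=
      integral_mono hFint hmajint hmaj
    have e2 : ∫ g, (a * ((GX A g ^ (2 * m)).trace * b ^ (a - 1)) + (1 - a) * b ^ a) ∂(gm n) =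
        a * ((∫ g, (GX A g ^ (2 * m)).trace ∂(gm n)) * b ^ (a - 1)) + (1 - a) * b ^ a := by
      rw [integral_add hi1 (integrable_const _), integral_const_mul, integral_mul_const]
      simp
    have e3 : a * ((∫ g, (GX A g ^ (2 * m)).trace ∂(gm n)) * b ^ (a - 1)) ≤ a * b ^ a := by
      refine mul_le_mul_of_nonneg_left ?_ ha0.le
      calc _ ≤ b * b ^ (a - 1) := mul_le_mul_of_nonneg_right hE (Real.rpow_nonneg hb0.le _)
        _ = b ^ a := by
          rw [Real.rpow_sub_one hb0.ne']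
          field_simp
    have e4 : b ^ a = Real.sqrt (2 * m) * (c ^ (m - 1) * T) ^ a := by
      rw [hb, Real.mul_rpow (by positivity) hcT.le, ← Real.rpow_natCast (2 * (m : ℝ)) m,
        ← Real.rpow_mul (by positivity), Real.sqrt_eq_rpow, ha]
      congr 2
      field_simp
    have e5 : ∫ g, F g ∂(gm n) ≤ Real.sqrt (2 * m) * (c ^ (m - 1) * T) ^ a := by
      rw [← e4]
      linarith
    rw [← ha]
    calc k1⁻¹ * (2 ^ n * ∫ g, F g ∂(gm n))
        ≤ k1⁻¹ * (2 ^ n * (Real.sqrt (2 * m) * (c ^ (m - 1) * T) ^ a)) := by gcongr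
      _ = 2 ^ n * (k1⁻¹ * Real.sqrt (2 * m) * (c ^ (m - 1) * T) ^ a) := by ring

end Pool.Agent.Q121.LR
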